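import Pool.Agent.H82.NET.Stmts

set_option autoImplicit false

namespace Pool.NET

namespace H26TPD

theorem near {δ a : ℝ} {g : ℤ} (hδ : 0 < δ) (h : g = ⌊a / δ⌋ ∨ g = ⌊a / δ⌋ + 1) :
    |δ * (g : ℝ) - a| ≤ δ := by
  have h1 := Int.floor_le (a / δ)
  have h2 := Int.lt_floor_add_one (a / δ)
  have h3 : a / δ * δ = a := div_mul_cancel₀ a hδ.ne'
  have h4 : |(g : ℝ) - a / δ| ≤ 1 := by
    rw [abs_le]
    rcases h with h | h
    · rw [h]
      constructor <;> linarith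
    · rw [h]
      push_cast
      constructor <;> linarith
  have h5 : δ * (g : ℝ) - a = δ * ((g : ℝ) - a / δ) := by
    rw [mul_sub, mul_div_cancel₀ a hδ.ne']
  rw [h5, abs_mul, abs_of_pos hδ]
  nlinarith

theorem mem_th {δ δ0 : ℝ} {F : Set (ℝ × ℝ)} {g : Nd} (hδ : 0 < δ) (hδ0 : δ < δ0)
    (h : g ∈ Qd δ F) : ((δ * (g.1 : ℝ), δ * (g.2 : ℝ)) : ℝ × ℝ) ∈ Metric.thickening δ0 F := by
  obtain ⟨p, hp, h1, h2⟩ := h
  rw [Metric.mem_thickening_iff]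
  refine ⟨p, hp, ?_⟩
  refine lt_of_le_of_lt ?_ hδ0
  rw [Prod.dist_eq]
  refine max_le ?_ ?_
  · rw [Real.dist_eq]
    exact near hδ h1
  · rw [Real.dist_eq]
    exact near hδ h2

end H26TPD

open H26TPD in
theorem tpd_thm : TPD_S := by
  intro F F' hF hF' hd
  obtain ⟨δ0, hδ0, hdis⟩ := hd.exists_thickenings hF hF'.isClosed
  refine ⟨δ0, hδ0, fun δ hδ hlt => ?_⟩
  rw [Set.disjoint_left] at hdis ⊢
  intro g hg hg'
  exact hdis (mem_th hδ hlt hg) (mem_th hδ hlt hg')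

end Pool.NET
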